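import Mathlib

/-!
# Scalar pairs are not double commutators in characteristic two

Let `K` be a field of characteristic two and `n % 4 = 2`.  If
`[a, [b, c]] = x • 1` and `[b, [c, a]] = y • 1` for `n × n` matrices `a, b, c` over `K`,
then one of `x`, `y`, `x + y` is zero.  For `n = 6` and a field with more than two
elements this refutes the surjectivity of the map
`(a, b, c) ↦ ([a, [b, c]], [b, [c, a]])` onto pairs of matrices of trace zero.

The point: if `u v - v u = s • 1` with `s ≠ 0`, then `u v` and `v u = u v - s • 1` have the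
same characteristic polynomial, and the coefficient of `X ^ (n - 2)` gives `tr (u v) = s`.
But `tr (a [b, c]) = tr (b [c, a]) = tr (c [a, b])`.
-/

open Polynomial Matrix

universe u

namespace Pool.Agent.Results.MP_525382_al.ScalarPairs

theorem coeff_taylor_two {K : Type*} [Field K] {n : ℕ} (hn : 2 ≤ n) (f : K[X])
    (hf : f.Monic) (hd : f.natDegree = n) (s : K) :
    (f.comp (X + C s)).coeff (n - 2) =
      f.coeff (n - 2) + ((n - 1 : ℕ) : K) * f.coeff (n - 1) * s + (n.choose 2 : K) * s ^ 2 := by
  have h0 : f.comp (X + C s) = taylor s f := by rw [taylor_apply]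
  rw [h0, taylor_coeff]
  have hdeg : (hasseDeriv (n - 2) f).natDegree < 3 := by
    have := natDegree_hasseDeriv_le f (n - 2)
    omega
  rw [eval_eq_sum_range' hdeg]
  simp only [Finset.sum_range_succ, Finset.sum_range_zero, hasseDeriv_coeff]
  obtain ⟨k, rfl⟩ : ∃ k, n = k + 2 := ⟨n - 2, by omega⟩
  have e1 : k + 2 - 2 = k := by omega
  have e2 : k + 2 - 1 = k + 1 := by omega
  have h2 : f.coeff (k + 2) = 1 := by rw [← hd]; exact hf
  have c1 : (1 + k).choose k = k + 1 := by rw [add_comm 1 k, Nat.choose_succ_self_right]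
  have c2 : (2 + k).choose k = (k + 2).choose 2 := by
    rw [add_comm 2 k, ← Nat.choose_symm_add]
  rw [e1, e2, c1, c2, add_comm 1 k, add_comm 2 k, h2]
  simp

theorem weyl_trace {K : Type*} [Field K] [CharP K 2] {n : ℕ} (hn : n % 4 = 2)
    (u v : Matrix (Fin n) (Fin n) K) (s : K) (hs : s ≠ 0)
    (h : u * v - v * u = scalar (Fin n) s) : trace (u * v) = s := by
  have h1 : v * u = u * v - scalar (Fin n) s := by rw [← h]; abel
  have h2 : (u * v).charpoly.comp (X + C s) = (u * v).charpoly := by
    rw [← charpoly_sub_scalar, ← h1, charpoly_mul_comm]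
  have hd : (u * v).charpoly.natDegree = n := by
    rw [charpoly_natDegree_eq_dim, Fintype.card_fin]
  have h3 := coeff_taylor_two (n := n) (by omega) (u * v).charpoly (charpoly_monic _) hd s
  rw [h2] at h3
  have : Nonempty (Fin n) := ⟨⟨0, by omega⟩⟩
  have htr : trace (u * v) = -(u * v).charpoly.coeff (n - 1) := by
    have := trace_eq_neg_charpoly_coeff (u * v)
    rwa [Fintype.card_fin] at this
  have c0 : ((2 : ℕ) : K) = 0 := CharP.cast_eq_zero K 2
  have ca : ((n - 1 : ℕ) : K) = 1 := by
    obtain ⟨k, hk⟩ : ∃ k, n - 1 = 2 * k + 1 := ⟨n / 4 * 2, by omega⟩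
    rw [hk]; push_cast; push_cast at c0; rw [c0]; ring
  have cb : (n.choose 2 : K) = 1 := by
    have : ∃ k, n.choose 2 = 2 * k + 1 := by
      rw [Nat.choose_two_right]
      obtain ⟨j, hj⟩ : ∃ j, n = 4 * j + 2 := ⟨n / 4, by omega⟩
      refine ⟨4 * j ^ 2 + 3 * j, ?_⟩
      have : n * (n - 1) = 2 * (2 * (4 * j ^ 2 + 3 * j) + 1) := by
        rw [hj]
        have : 4 * j + 2 - 1 = 4 * j + 1 := by omega
        rw [this]; ring
      rw [this]; simp
    obtain ⟨k, hk⟩ := this
    rw [hk]; push_cast; push_cast at c0; rw [c0]; ring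
  rw [ca, cb] at h3
  have h4 : s * ((u * v).charpoly.coeff (n - 1) + s) = 0 := by
    linear_combination -h3
  have h5 : (u * v).charpoly.coeff (n - 1) + s = 0 := by
    rcases mul_eq_zero.1 h4 with h | h
    · exact absurd h hs
    · exact h
  rw [htr]
  linear_combination -h5

/-- Jacobi identity and traces: in characteristic two and `n % 4 = 2`, the pair of scalar
matrices `(x, y)` with `x, y, x + y` all nonzero is not of the form
`([a, [b, c]], [b, [c, a]])`. -/
theorem not_scalar_pair {K : Type*} [Field K] [CharP K 2] {n : ℕ} (hn : n % 4 = 2)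
    (x y : K) (hx : x ≠ 0) (hy : y ≠ 0) (hxy : x + y ≠ 0)
    (a b c : Matrix (Fin n) (Fin n) K)
    (h1 : a * (b * c - c * b) - (b * c - c * b) * a = scalar (Fin n) x)
    (h2 : b * (c * a - a * c) - (c * a - a * c) * b = scalar (Fin n) y) : False := by
  have h3 : c * (a * b - b * a) - (a * b - b * a) * c = scalar (Fin n) (-(x + y)) := by
    rw [map_neg, map_add, ← h1, ← h2]
    noncomm_ring
  have t1 : trace (a * (b * c - c * b)) = x := weyl_trace hn _ _ _ hx h1
  have t2 : trace (b * (c * a - a * c)) = y := weyl_trace hn _ _ _ hy h2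
  have t3 : trace (c * (a * b - b * a)) = -(x + y) :=
    weyl_trace hn _ _ _ (neg_ne_zero.2 hxy) h3
  have m1 := Matrix.trace_mul_cycle a c b
  have m2 := Matrix.trace_mul_cycle b c a
  have m3 := Matrix.trace_mul_cycle c a b
  have m4 := Matrix.trace_mul_cycle b a c
  rw [Matrix.mul_sub, trace_sub, ← Matrix.mul_assoc, ← Matrix.mul_assoc] at t1 t2 t3
  have c0 : (2 : K) = 0 := by
    have := CharP.cast_eq_zero K 2
    exact_mod_cast this
  have e1 : x = y := by
    rw [← t1, ← t2, m1, m2]
  have e2 : y = -(x + y) := by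
    linear_combination (-1) * t2 + t3 - m3 - m4
  apply hy
  linear_combination e2 - e1 - y * c0

theorem key (K : Type*) [Field K] [CharP K 2] (n : ℕ) (hn : n % 4 = 2)
    (x y : K) (hx : x ≠ 0) (hy : y ≠ 0) (hxy : x + y ≠ 0) :
    trace (scalar (Fin n) x) = 0 ∧ trace (scalar (Fin n) y) = 0 ∧
    ¬ ∃ a b c : Matrix (Fin n) (Fin n) K,
      a * (b * c - c * b) - (b * c - c * b) * a = scalar (Fin n) x ∧
      b * (c * a - a * c) - (c * a - a * c) * b = scalar (Fin n) y := by
  have hn0 : (n : K) = 0 := by
    rw [CharP.cast_eq_zero_iff K 2]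
    omega
  have tr0 : ∀ z : K, trace (scalar (Fin n) z) = 0 := by
    intro z
    rw [scalar_apply, trace_diagonal]
    simp [hn0]
  refine ⟨tr0 x, tr0 y, ?_⟩
  rintro ⟨a, b, c, h1, h2⟩
  exact not_scalar_pair hn x y hx hy hxy a b c h1 h2

/-- The field with four elements has an element different from `0` and `1`. -/
theorem exists_third : ∃ w : GaloisField 2 2, w ≠ 0 ∧ (1 : GaloisField 2 2) + w ≠ 0 := by
  classical
  have hc : Nat.card (GaloisField 2 2) = 4 := by
    rw [GaloisField.card 2 2 (by norm_num)]; norm_num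
  have : Finite (GaloisField 2 2) := Nat.finite_of_card_ne_zero (by rw [hc]; norm_num)
  have : Fintype (GaloisField 2 2) := Fintype.ofFinite _
  rw [Nat.card_eq_fintype_card] at hc
  by_contra hcon
  push Not at hcon
  have hsub : (Finset.univ : Finset (GaloisField 2 2)) ⊆ {0, -1} := by
    intro w _
    rw [Finset.mem_insert, Finset.mem_singleton]
    by_cases hw : w = 0
    · exact Or.inl hw
    · right
      have := hcon w hw
      linear_combination this
  have h1 := Finset.card_le_card hsub
  rw [Finset.card_univ, hc] at h1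
  have h2 : ({0, -1} : Finset (GaloisField 2 2)).card ≤ 2 := Finset.card_le_two
  omega

/-- **Full negative answer.**  First part: over every field of characteristic two and for every
`n` with `n % 4 = 2`, the scalar matrices `x • 1`, `y • 1` with `x, y, x + y` all nonzero have
trace zero and are not of the form `([a, [b, c]], [b, [c, a]])`.  Second part: in particular the
map is not surjective for `n = 6` over the field with four elements. -/
theorem result :
    (∀ (K : Type u) [Field K] [CharP K 2] (n : ℕ), n % 4 = 2 →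
      ∀ x y : K, x ≠ 0 → y ≠ 0 → x + y ≠ 0 →
        trace (scalar (Fin n) x) = 0 ∧ trace (scalar (Fin n) y) = 0 ∧
        ¬ ∃ a b c : Matrix (Fin n) (Fin n) K,
          a * (b * c - c * b) - (b * c - c * b) * a = scalar (Fin n) x ∧
          b * (c * a - a * c) - (c * a - a * c) * b = scalar (Fin n) y) ∧
    ∃ X Y : Matrix (Fin 6) (Fin 6) (GaloisField 2 2), trace X = 0 ∧ trace Y = 0 ∧
      ¬ ∃ a b c : Matrix (Fin 6) (Fin 6) (GaloisField 2 2),
        X = a * (b * c - c * b) - (b * c - c * b) * a ∧
        Y = b * (c * a - a * c) - (c * a - a * c) * b := by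
  refine ⟨fun K _ _ n hn x y hx hy hxy => key K n hn x y hx hy hxy, ?_⟩
  obtain ⟨w, hw, hw1⟩ := exists_third
  have : CharP (GaloisField 2 2) 2 := inferInstance
  obtain ⟨t1, t2, h⟩ := key (GaloisField 2 2) 6 (by norm_num) 1 w one_ne_zero hw hw1
  refine ⟨_, _, t1, t2, ?_⟩
  rintro ⟨a, b, c, h1, h2⟩
  exact h ⟨a, b, c, h1.symm, h2.symm⟩

end Pool.Agent.Results.MP_525382_al.ScalarPairs

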